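import Pool.Agent.H31.FW.TargetsG
import Pool.Agent.H29.DW.CC

/-!
# The correlations
-/

set_option autoImplicit false
set_option linter.unusedVariables false

open NumberField NumberField.InfinitePlace NumberField.Units
  NumberField.Units.dirichletUnitTheorem MeasureTheory Set Filter Complex
open scoped nonZeroDivisors ENNReal

namespace Pool.Agent.H46.FW.CC

open Pool.Agent.H31.FW
open Pool.Agent.H25.HK Pool.Agent.H23.LB Pool.Agent.H23.LC Pool.Agent.H29.DW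
open Pool.Agent.H28.RC (Rep ft idl)
open Pool.Agent.H29.TC (dvs cq LC Gn)

theorem pf_CC (hCS : Q_CS) (hEX : Pool.Agent.H29.TC.T_EX) (hCQ : Pool.Agent.H29.TC.T_CQ)
    (hDF : Pool.Agent.H29.TC.T_DF) : Q_CC := by
  intro n K _ _ hn l g q hG η hη M x₀ hM hx₀
  have hG' : GQ (⊤ : Ideal (𝓞 K)) g q :=
    ⟨top_ne_bot, hG.g_ne, hG.q_ne, top_sup_eq _, hG.rad, hG.loc⟩
  have hf : l * (g * q) ≠ ⊥ := by
    rw [← Ideal.zero_eq_bot]
    exact mul_ne_zero hG.l_ne (mul_ne_zero hG.g_ne hG.q_ne)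
  have hlq : l ⊔ q = ⊤ := by
    rw [eq_top_iff, ← hG.cop]
    exact sup_le_sup_left Ideal.mul_le_right l
  have hx₁ : Gn (g * q) M x₀ :=
    (hCQ K (l * (g * q)) (fun _ => 0) M x₀ hf hM hx₀).2.2 _ Ideal.mul_le_right
  have key : ∀ h ∈ ((l * g : Ideal (𝓞 K)) : FI K) * M, ∃ e ∈ dvs K q,
      h ∈ ((l * g * e : Ideal (𝓞 K)) : FI K) * M ∧
      (∀ x ∈ M, ∀ t ∈ (q : FI K) * M,
        cq (g * q) η M x₀ (x + t + h) * (starRingEnd ℂ) (cq (g * q) η M x₀ (x + t)) =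
          cq (g * q) η M x₀ (x + h) * (starRingEnd ℂ) (cq (g * q) η M x₀ x)) ∧
      ∀ X : Finset K, Rep K q M X → ∀ y ∈ du K ((q : FI K) * M),
        ‖ft K X (fun x => cq (g * q) η M x₀ (x + h) *
          (starRingEnd ℂ) (cq (g * q) η M x₀ x)) y‖ ≤
          DQ n (g * q) * (Real.sqrt (Nf K q) * Nf K e) := by
    intro h hh
    have hg : h ∈ (g : FI K) * M := by
      have : ((l * g : Ideal (𝓞 K)) : FI K) ≤ (g : FI K) :=
        (FractionalIdeal.coeIdeal_le_coeIdeal' (𝓞 K)⁰ le_rfl).2 Ideal.mul_le_right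
      exact mul_le_mul_left this M hh
    obtain ⟨e, h1, h2, h3, h4⟩ := hEX K g q hG.g_ne hG.q_ne M hM h hg
    obtain ⟨h5, h6⟩ := hCS n K hn g q hG' η hη M x₀ e h hM hx₁ h1 h2 h3
    exact ⟨e, (hDF K q hG.q_ne e).2 h1, h4 l hlq hh, h5, h6⟩
  refine ⟨⟨fun x _ => norm_cq _ hη _ _ _, fun h hh _ => key h hh⟩,
    ⟨fun x _ => ?_, fun h hh _ => ?_⟩⟩
  · rw [RCLike.norm_conj]
    exact norm_cq _ hη _ _ _
  · obtain ⟨e, h1, h2, h3, h4⟩ := key h hh
    refine ⟨e, h1, h2, fun x hx t ht => ?_, fun X hX y hy => ?_⟩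
    · rw [← map_mul, ← map_mul, h3 x hx t ht]
    · have h5 : ft K X (fun x => (starRingEnd ℂ) (cq (g * q) η M x₀ (x + h)) *
          (starRingEnd ℂ) ((starRingEnd ℂ) (cq (g * q) η M x₀ x))) y =
          (starRingEnd ℂ) (ft K X (fun x => cq (g * q) η M x₀ (x + h) *
          (starRingEnd ℂ) (cq (g * q) η M x₀ x)) (-y)) := by
        rw [← conj_ft]
        congr 1
        funext x
        rw [map_mul]
      have h6 : -y ∈ du K ((q : FI K) * M) := by
        rw [← FractionalIdeal.mem_coe] at hy ⊢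
        exact Submodule.neg_mem _ hy
      rw [h5, RCLike.norm_conj]
      exact h4 X hX _ h6

end Pool.Agent.H46.FW.CC
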